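import Pool.Agent.Helper75.Slab.Goals

set_option autoImplicit false

/-!
# Energy of the deviation from a uniform flow in the slab
-/

open Set MeasureTheory

namespace Pool.Agent.Helper48.Slab

open Pool.Agent.Helper75.Slab

/-! ### the slab -/

theorem M_convex : Convex ℝ M := by
  intro x hx y hy a b ha hb hab
  simp only [M, mem_ofPred_eq, Pi.add_apply, Pi.smul_apply, smul_eq_mul] at *
  obtain ⟨hx0, hx1⟩ := hx
  obtain ⟨hy0, hy1⟩ := hy
  constructor
  · positivity
  · nlinarith [mul_le_mul_of_nonneg_left hx1 ha, mul_le_mul_of_nonneg_left hy1 hb]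

theorem M_closed : IsClosed M := by
  have h1 : IsClosed {x : E | 0 ≤ x 2} := isClosed_le continuous_const (continuous_apply 2)
  have h2 : IsClosed {x : E | x 2 ≤ 1} := isClosed_le (continuous_apply 2) continuous_const
  exact h1.inter h2

theorem O_open : IsOpen O := by
  have h1 : IsOpen {x : E | 0 < x 2} := isOpen_lt continuous_const (continuous_apply 2)
  have h2 : IsOpen {x : E | x 2 < 1} := isOpen_lt (continuous_apply 2) continuous_const
  exact h1.inter h2

theorem M_udiff : UniqueDiffOn ℝ M := by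
  apply uniqueDiffOn_convex M_convex
  refine ⟨fun _ => 1/2, ?_⟩
  rw [mem_interior]
  refine ⟨O, fun x hx => ⟨hx.1.le, hx.2.le⟩, O_open, ?_⟩
  constructor <;> norm_num

theorem pd_eq {f : E → ℝ} {f' : E →L[ℝ] ℝ} {x : E} (h : HasFDerivWithinAt f f' M x) (hx : x ∈ M)
    (j : Fin 3) : pd j f x = f' (Pi.single j 1) := by
  unfold pd
  rw [h.fderivWithin (M_udiff x hx)]

/-! ### the boxes -/

theorem Bx_eq (c R : ℝ) : Bx c R = Icc (![c - R, -R, 0] : E) ![c + R, R, 1] := by
  ext x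
  simp only [Bx, M, mem_ofPred_eq, mem_Icc, Pi.le_def, Fin.forall_fin_succ, abs_le]
  simp
  constructor
  · rintro ⟨⟨h1, h2⟩, ⟨h3, h4⟩, h5, h6⟩
    refine ⟨⟨?_, h5, h1⟩, ?_, h6, h2⟩ <;> linarith
  · rintro ⟨⟨h1, h2, h3⟩, h4, h5, h6⟩
    refine ⟨⟨h3, h6⟩, ⟨?_, ?_⟩, h2, h5⟩ <;> linarith

theorem Bx_compact (c R : ℝ) : IsCompact (Bx c R) := by
  rw [Bx_eq]; exact isCompact_Icc

theorem Bx_sub (c R : ℝ) : Bx c R ⊆ M := fun _ hx => hx.1

theorem Bx_mono (c : ℝ) {R R' : ℝ} (h : R ≤ R') : Bx c R ⊆ Bx c R' :=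
  fun _ hx => ⟨hx.1, hx.2.1.trans h, hx.2.2.trans h⟩

theorem Bx_vol (c R : ℝ) (hR : 0 ≤ R) : volume.real (Bx c R) = 4 * R ^ 2 := by
  rw [Bx_eq, Measure.real, Real.volume_Icc_pi_toReal]
  · rw [Fin.prod_univ_three]
    simp
    ring
  · intro i
    fin_cases i <;> simp <;> linarith

/-! ### the cutoff -/

/-- the one-dimensional cutoff -/
noncomputable def cf (y : ℝ) : ℝ := Real.smoothTransition ((4 - y ^ 2) / 3)

theorem cf_smooth : ContDiff ℝ 1 cf := by
  unfold cf
  exact Real.smoothTransition.contDiff.comp (by fun_prop)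

theorem cf_nonneg (y : ℝ) : 0 ≤ cf y := Real.smoothTransition.nonneg _

theorem cf_le (y : ℝ) : cf y ≤ 1 := Real.smoothTransition.le_one _

theorem cf_one {y : ℝ} (h : |y| ≤ 1) : cf y = 1 := by
  apply Real.smoothTransition.one_of_one_le
  have : y ^ 2 ≤ 1 := by
    rw [← sq_abs]; nlinarith [abs_nonneg y]
  linarith

theorem cf_zero {y : ℝ} (h : 2 ≤ |y|) : cf y = 0 := by
  apply Real.smoothTransition.zero_of_nonpos
  have : 4 ≤ y ^ 2 := by
    rw [← sq_abs]; nlinarith [abs_nonneg y]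
  linarith

theorem cf_deriv_bound : ∃ C : ℝ, 0 ≤ C ∧ ∀ y, |deriv cf y| ≤ C := by
  have hc : Continuous (deriv cf) := cf_smooth.continuous_deriv le_rfl
  obtain ⟨C, hC⟩ := (isCompact_Icc (a := (-2:ℝ)) (b := 2)).exists_bound_of_continuousOn
    hc.continuousOn
  refine ⟨C, ?_, ?_⟩
  · exact (norm_nonneg _).trans (hC 0 (by norm_num))
  · intro y
    by_cases hy : |y| ≤ 2
    · exact hC y (abs_le.mp hy)
    · have hy' : 2 < |y| := not_le.mp hy
      have : cf =ᶠ[nhds y] fun _ => 0 := by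
        filter_upwards [(isOpen_lt continuous_const continuous_abs).mem_nhds hy'] with z hz
        exact cf_zero (le_of_lt hz)
      rw [this.deriv_eq]
      simp
      exact (norm_nonneg _).trans (hC 0 (by norm_num))

/-- the cutoff of the box -/
noncomputable def chi (c R : ℝ) (x : E) : ℝ := cf ((x 0 - c) / R) * cf (x 1 / R)

theorem chi_smooth (c R : ℝ) : ContDiff ℝ 1 (chi c R) := by
  unfold chi
  apply ContDiff.mul
  · exact cf_smooth.comp (by fun_prop)
  · exact cf_smooth.comp (by fun_prop)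

theorem chi_nonneg (c R : ℝ) (x : E) : 0 ≤ chi c R x := mul_nonneg (cf_nonneg _) (cf_nonneg _)

theorem chi_le (c R : ℝ) (x : E) : chi c R x ≤ 1 :=
  mul_le_one₀ (cf_le _) (cf_nonneg _) (cf_le _)

theorem chi_one {c R : ℝ} (hR : 0 < R) {x : E} (hx : x ∈ Bx c R) : chi c R x = 1 := by
  unfold chi
  rw [cf_one, cf_one, one_mul]
  · rw [abs_div, abs_of_pos hR, div_le_one hR]; exact hx.2.2
  · rw [abs_div, abs_of_pos hR, div_le_one hR]; exact hx.2.1

theorem chi_zero {c R : ℝ} (hR : 0 < R) {x : E} (hx : 2 * R ≤ |x 0 - c| ∨ 2 * R ≤ |x 1|) :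
    chi c R x = 0 := by
  unfold chi
  rcases hx with hx | hx
  · rw [cf_zero, zero_mul]
    rw [abs_div, abs_of_pos hR, le_div_iff₀ hR]; exact hx
  · rw [cf_zero (y := x 1 / R), mul_zero]
    rw [abs_div, abs_of_pos hR, le_div_iff₀ hR]; exact hx

theorem chi_zero' {c R : ℝ} (hR : 0 < R) {x : E} (hM : x ∈ M) (hx : x ∉ Bx c (2 * R)) :
    chi c R x = 0 := by
  apply chi_zero hR
  by_contra h
  push Not at h
  exact hx ⟨hM, h.1.le, h.2.le⟩

theorem chi_pd {c R C : ℝ} (hR : 0 < R) (hC : ∀ y, |deriv cf y| ≤ C) {x : E} (hx : x ∈ M) :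
    |pd 0 (chi c R) x| ≤ C / R ∧ |pd 1 (chi c R) x| ≤ C / R ∧ pd 2 (chi c R) x = 0 := by
  have hC0 : 0 ≤ C := (abs_nonneg _).trans (hC 0)
  have hd : ∀ y, HasDerivAt cf (deriv cf y) y := fun y =>
    (cf_smooth.differentiable (by norm_num) y).hasDerivAt
  have h0 : HasFDerivAt (fun x : E => (x 0 - c) / R) (R⁻¹ • (ContinuousLinearMap.proj 0 : E →L[ℝ] ℝ)) x := by
    have h := ((ContinuousLinearMap.proj (R := ℝ) (φ := fun _ : Fin 3 => ℝ) 0).hasFDerivAt (x := x)).sub_const c |>.const_smul R⁻¹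
    refine h.congr_of_eventuallyEq (Filter.Eventually.of_forall ?_)
    intro z
    simp [div_eq_inv_mul]
  have h1 : HasFDerivAt (fun x : E => x 1 / R) (R⁻¹ • (ContinuousLinearMap.proj 1 : E →L[ℝ] ℝ)) x := by
    have h := ((ContinuousLinearMap.proj (R := ℝ) (φ := fun _ : Fin 3 => ℝ) 1).hasFDerivAt (x := x)).const_smul R⁻¹
    refine h.congr_of_eventuallyEq (Filter.Eventually.of_forall ?_)
    intro z
    simp [div_eq_inv_mul]
  have H0 := (hd ((x 0 - c) / R)).comp_hasFDerivAt x h0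
  have H1 := (hd (x 1 / R)).comp_hasFDerivAt x h1
  have H := (H0.mul H1).hasFDerivWithinAt (s := M)
  have e : ∀ j, pd j (chi c R) x = _ := fun j => pd_eq (f := chi c R) H hx j
  have hRi : 0 < R⁻¹ := inv_pos.mpr hR
  refine ⟨?_, ?_, ?_⟩
  · rw [e 0]
    simp [abs_mul, abs_of_pos hR]
    rw [abs_of_nonneg (cf_nonneg _)]
    calc cf (x 1 / R) * (|deriv cf ((x 0 - c) / R)| * R⁻¹) ≤ 1 * (C * R⁻¹) := by
          apply mul_le_mul (cf_le _) _ (by positivity) zero_le_one
          exact mul_le_mul_of_nonneg_right (hC _) hRi.le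
      _ = C / R := by rw [one_mul, div_eq_mul_inv]
  · rw [e 1]
    simp [abs_mul, abs_of_pos hR]
    rw [abs_of_nonneg (cf_nonneg _)]
    calc cf ((x 0 - c) / R) * (|deriv cf (x 1 / R)| * R⁻¹) ≤ 1 * (C * R⁻¹) := by
          apply mul_le_mul (cf_le _) _ (by positivity) zero_le_one
          exact mul_le_mul_of_nonneg_right (hC _) hRi.le
      _ = C / R := by rw [one_mul, div_eq_mul_inv]
  · rw [e 2]
    simp

/-! ### the flux -/

/-- components of the deviation from `(U, 0, 0)` -/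
noncomputable def dv (U : ℝ) (v : E → E) (i : Fin 3) (x : E) : ℝ := v x i - (if i = 0 then U else 0)

theorem en_eq (U : ℝ) (v : E → E) (x : E) :
    en U v x = dv U v 0 x * dv U v 0 x + dv U v 1 x * dv U v 1 x + dv U v 2 x * dv U v 2 x := by
  simp [en, dv]
  ring

/-- the time derivative of the energy density -/
noncomputable def Dt (U : ℝ) (v : E → E) (q : E → ℝ) (x : E) : ℝ :=
  ∑ i, 2 * dv U v i x * (-(∑ j, v x j * pd j (fun y => v y i) x) - pd i q x)

/-- the flux -/
noncomputable def Gf (U q0 : ℝ) (v : E → E) (q : E → ℝ) (i : Fin 3) (x : E) : ℝ :=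
  (dv U v 0 x * dv U v 0 x + dv U v 1 x * dv U v 1 x + dv U v 2 x * dv U v 2 x) * v x i +
    2 * (q x - q0) * dv U v i x

theorem flux_id (U q0 c R : ℝ) (v : E → E) (q : E → ℝ) (hv : IsVelocity v)
    (hq : ContDiffOn ℝ 2 q M) {x : E} (hx : x ∈ M) :
    ∑ i, pd i (fun z => chi c R z * Gf U q0 v q i z) x =
      -(chi c R x * Dt U v q x) + ∑ i, pd i (chi c R) x * Gf U q0 v q i x := by
  have hvd : ∀ i, HasFDerivWithinAt (fun z => v z i) (fderivWithin ℝ (fun z => v z i) M x) M x :=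
    fun i => ((hv.1 i).differentiableOn (by norm_num) x hx).hasFDerivWithinAt
  have hqd : HasFDerivWithinAt q (fderivWithin ℝ q M x) M x :=
    (hq.differentiableOn (by norm_num) x hx).hasFDerivWithinAt
  have hcd : HasFDerivWithinAt (chi c R) (fderivWithin ℝ (chi c R) M x) M x :=
    (((chi_smooth c R).contDiffOn (s := M)).differentiableOn (by norm_num) x hx).hasFDerivWithinAt
  have hdd : ∀ i, HasFDerivWithinAt (dv U v i) (fderivWithin ℝ (fun z => v z i) M x) M x :=
    fun i => (hvd i).sub_const _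
  have hen := (((hdd 0).mul (hdd 0)).add ((hdd 1).mul (hdd 1))).add ((hdd 2).mul (hdd 2))
  have hG : ∀ i, HasFDerivWithinAt (Gf U q0 v q i) _ M x := fun i =>
    (hen.mul (hvd i)).add (((hqd.sub_const q0).const_mul 2).mul (hdd i))
  have hF : ∀ i, HasFDerivWithinAt (fun z => chi c R z * Gf U q0 v q i z) _ M x := fun i =>
    hcd.mul (hG i)
  have e : ∀ i, pd i (fun z => chi c R z * Gf U q0 v q i z) x = _ := fun i => pd_eq (hF i) hx i
  have hdiv := hv.2.2.1 x hx
  rw [Finset.sum_congr rfl (fun i _ => e i)]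
  simp only [Fin.sum_univ_three, Dt, Gf] at *
  simp only [pd] at *
  simp
  linear_combination (chi c R x * (dv U v 0 x * dv U v 0 x + dv U v 1 x * dv U v 1 x +
    dv U v 2 x * dv U v 2 x + 2 * (q x - q0))) * hdiv

theorem dv_contDiffOn {U : ℝ} {v : E → E} (hv : IsVelocity v) (i : Fin 3) :
    ContDiffOn ℝ 1 (dv U v i) M := (hv.1 i).sub contDiffOn_const

theorem Gf_contDiffOn {U q0 : ℝ} {v : E → E} {q : E → ℝ} (hv : IsVelocity v)
    (hq : ContDiffOn ℝ 2 q M) (i : Fin 3) : ContDiffOn ℝ 1 (Gf U q0 v q i) M := by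
  have hd := fun i => dv_contDiffOn (U := U) hv i
  have hq1 : ContDiffOn ℝ 1 q M := hq.of_le (by norm_num)
  exact (((((hd 0).mul (hd 0)).add ((hd 1).mul (hd 1))).add ((hd 2).mul (hd 2))).mul (hv.1 i)).add
    ((contDiffOn_const.mul (hq1.sub contDiffOn_const)).mul (hd i))

theorem Gf_bound {U q0 C W P : ℝ} {v : E → E} {q : E → ℝ} (hW : 0 ≤ W) {x : E}
    (h1 : ∀ i, |v x i| ≤ C) (h2 : ∀ i, |dv U v i x| ≤ W) (h3 : |q x - q0| ≤ P) (i : Fin 3) :
    |Gf U q0 v q i x| ≤ 3 * W ^ 2 * C + 2 * P * W := by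
  have hP : 0 ≤ P := (abs_nonneg _).trans h3
  have hC : 0 ≤ C := (abs_nonneg _).trans (h1 0)
  have hs : ∀ k, dv U v k x * dv U v k x ≤ W ^ 2 := by
    intro k
    rw [← abs_mul_abs_self]
    nlinarith [h2 k, abs_nonneg (dv U v k x)]
  have hs0 : ∀ k, 0 ≤ dv U v k x * dv U v k x := fun k => mul_self_nonneg _
  unfold Gf
  refine (abs_add_le _ _).trans ?_
  rw [abs_mul, abs_mul, abs_mul]
  have hE0 : 0 ≤ dv U v 0 x * dv U v 0 x + dv U v 1 x * dv U v 1 x + dv U v 2 x * dv U v 2 x := by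
    have := hs0 0; have := hs0 1; have := hs0 2; linarith
  rw [abs_of_nonneg hE0]
  have hE1 : dv U v 0 x * dv U v 0 x + dv U v 1 x * dv U v 1 x + dv U v 2 x * dv U v 2 x
      ≤ 3 * W ^ 2 := by
    have := hs 0; have := hs 1; have := hs 2; linarith
  have a1 := mul_le_mul hE1 (h1 i) (abs_nonneg _) (by positivity)
  have a2 : |(2:ℝ)| * |q x - q0| * |dv U v i x| ≤ 2 * P * W := by
    rw [abs_of_pos (by norm_num : (0:ℝ) < 2)]
    exact mul_le_mul (mul_le_mul_of_nonneg_left h3 (by norm_num)) (h2 i) (abs_nonneg _)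
      (by positivity)
  linarith

/-- the energy flux through the boundary layer of the cutoff -/
theorem flux_bound (hDIV : G_DIV) {U q0 C W P c R Cf : ℝ} {v : E → E} {q : E → ℝ}
    (hv : IsVelocity v) (hq : ContDiffOn ℝ 2 q M) (hR : 1 ≤ R) (hW : 0 ≤ W)
    (hCf : ∀ y, |deriv cf y| ≤ Cf)
    (h1 : ∀ x ∈ M, ∀ i, |v x i| ≤ C) (h2 : ∀ x ∈ M, ∀ i, |dv U v i x| ≤ W)
    (h3 : ∀ x ∈ Bx c (2 * R), |q x - q0| ≤ P)
    (hDc : ContinuousOn (Dt U v q) M) :
    |∫ x in Bx c (2 * R), chi c R x * Dt U v q x| ≤ 32 * Cf * R * (3 * W ^ 2 * C + 2 * P * W) := by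
  have hR0 : 0 < R := by linarith
  have hCf0 : 0 ≤ Cf := (abs_nonneg _).trans (hCf 0)
  have hchi : ContinuousOn (chi c R) M := (chi_smooth c R).continuous.continuousOn
  -- the divergence theorem
  have hdiv := hDIV (fun x i => chi c R x * Gf U q0 v q i x) (|c| + 2 * R)
    (fun i => ((chi_smooth c R).contDiffOn).mul (Gf_contDiffOn hv hq i)) ?_ ?_
  rotate_left
  · intro x hx hx'
    have : chi c R x = 0 := by
      apply chi_zero hR0
      rcases hx' with h | h
      · left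
        have := abs_sub_abs_le_abs_sub (x 0) c
        linarith
      · right
        have := abs_nonneg c
        linarith
    ext i
    simp [this]
  · intro x hx hx'
    have h := hv.2.2.2 x hx hx'
    simp [Gf, dv, h]
  rw [setIntegral_congr_fun M_closed.measurableSet
    (fun x hx => flux_id U q0 c R v q hv hq hx)] at hdiv
  -- restrict to the box
  have hpd0 : ∀ x ∈ M, x ∉ Bx c (2 * R) → ∀ i, pd i (chi c R) x = 0 := by
    intro x hx hx' i
    have h : chi c R =ᶠ[nhdsWithin x M] fun _ => 0 := by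
      have hU : IsOpen (Bx c (2 * R))ᶜ := (Bx_compact c (2 * R)).isClosed.isOpen_compl
      filter_upwards [self_mem_nhdsWithin, mem_nhdsWithin_of_mem_nhds (hU.mem_nhds hx')] with z hz hz'
      exact chi_zero' hR0 hz hz'
    unfold pd
    rw [h.fderivWithin_eq (chi_zero' hR0 hx hx')]
    simp
  rw [setIntegral_eq_of_subset_of_forall_sdiff_eq_zero M_closed.measurableSet (Bx_sub c (2 * R))]
    at hdiv
  swap
  · intro x hx
    simp [chi_zero' hR0 hx.1 hx.2, hpd0 x hx.1 hx.2]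
  have hcpd : ∀ i, ContinuousOn (pd i (chi c R)) M := by
    intro i
    have := ((chi_smooth c R).contDiffOn (s := M)).continuousOn_fderivWithin M_udiff (by norm_num)
    exact this.clm_apply continuousOn_const
  have i1 : IntegrableOn (fun x => chi c R x * Dt U v q x) (Bx c (2 * R)) :=
    ((hchi.mul hDc).mono (Bx_sub _ _)).integrableOn_compact (Bx_compact _ _)
  have i2 : IntegrableOn (fun x => ∑ i, pd i (chi c R) x * Gf U q0 v q i x) (Bx c (2 * R)) := by
    refine ContinuousOn.integrableOn_compact (Bx_compact _ _) ?_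
    refine ContinuousOn.mono ?_ (Bx_sub _ _)
    exact continuousOn_finsetSum _ (fun i _ => (hcpd i).mul (Gf_contDiffOn hv hq i).continuousOn)
  have i1' : IntegrableOn (fun x => -(chi c R x * Dt U v q x)) (Bx c (2 * R)) := i1.neg
  rw [integral_add i1' i2, integral_neg] at hdiv
  have heq : ∫ x in Bx c (2 * R), chi c R x * Dt U v q x =
      ∫ x in Bx c (2 * R), ∑ i, pd i (chi c R) x * Gf U q0 v q i x := by linarith
  rw [heq]
  have hb : ∀ x ∈ Bx c (2 * R), ‖∑ i, pd i (chi c R) x * Gf U q0 v q i x‖ ≤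
      2 * (Cf / R * (3 * W ^ 2 * C + 2 * P * W)) := by
    intro x hx
    have hxM := Bx_sub _ _ hx
    obtain ⟨p0, p1, p2⟩ := chi_pd hR0 hCf (c := c) hxM
    have g := Gf_bound (q0 := q0) hW (h1 x hxM) (h2 x hxM) (h3 x hx)
    have hS0 := (abs_nonneg _).trans (g 0)
    rw [Fin.sum_univ_three, p2, zero_mul, add_zero, Real.norm_eq_abs]
    refine (abs_add_le _ _).trans ?_
    rw [abs_mul, abs_mul]
    have a0 := mul_le_mul p0 (g 0) (abs_nonneg _) (by positivity)
    have a1 := mul_le_mul p1 (g 1) (abs_nonneg _) (by positivity)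
    linarith
  have hfin : volume (Bx c (2 * R)) < ⊤ := (Bx_compact _ _).measure_lt_top
  have := norm_setIntegral_le_of_norm_le_const hfin hb
  rw [Bx_vol _ _ (by linarith), Real.norm_eq_abs] at this
  refine this.trans (le_of_eq ?_)
  field_simp
  ring

/-! ### conclusion -/

theorem en_continuousOn (U : ℝ) {v : E → E} (hv : IsVelocity v) : ContinuousOn (en U v) M := by
  have h := fun i => (dv_contDiffOn (U := U) hv i).continuousOn
  have h2 : en U v = fun x => dv U v 0 x * dv U v 0 x + dv U v 1 x * dv U v 1 x +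
      dv U v 2 x * dv U v 2 x := funext (en_eq U v)
  rw [h2]
  exact (((h 0).mul (h 0)).add ((h 1).mul (h 1))).add ((h 2).mul (h 2))

theorem en_nonneg (U : ℝ) (v : E → E) (x : E) : 0 ≤ en U v x := by
  unfold en; positivity

/-- the energy of the deviation from a uniform flow is conserved in huge boxes, up to a small
error, given the divergence theorem -/
theorem thm_ENER (hDIV : G_DIV) : G_ENER := by
  intro t u ht hu U ρ hρ
  obtain ⟨hvel, ⟨C, hC⟩, hcu, hcpu, p, hp2, hcp, hcpp, hosc, hE⟩ := hu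
  have h0t : (0:ℝ) ∈ Icc 0 t := ⟨le_rfl, ht⟩
  have hC1 : ∀ s ∈ Icc 0 t, ∀ x ∈ M, ∀ i, |u s x i| ≤ C := by
    intro s hs x hx i
    have := (hC s hs i x hx).1
    simpa using this
  have hC0 : 0 ≤ C :=
    (abs_nonneg _).trans (hC1 0 h0t (fun _ => 0) ⟨le_rfl, zero_le_one⟩ 0)
  obtain ⟨W, hWdef⟩ : ∃ W, W = C + |U| := ⟨_, rfl⟩
  have hW : 0 ≤ W := by rw [hWdef]; positivity
  have hdv : ∀ s ∈ Icc 0 t, ∀ x ∈ M, ∀ i, |dv U (u s) i x| ≤ W := by
    intro s hs x hx i
    unfold dv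
    refine (abs_sub _ _).trans ?_
    rw [hWdef]
    refine add_le_add (hC1 s hs x hx i) ?_
    split_ifs
    · exact le_rfl
    · simp
  obtain ⟨Cf, hCf0, hCf⟩ := cf_deriv_bound
  have hcD : ContinuousOn (fun z : ℝ × E => Dt U (u z.1) (p z.1) z.2) (Icc 0 t ×ˢ M) := by
    unfold Dt dv
    refine continuousOn_finsetSum _ (fun i _ => ?_)
    refine ((continuousOn_const.mul ((hcu i).sub continuousOn_const)).mul ?_)
    exact ((continuousOn_finsetSum _ (fun j _ => (hcu j).mul (hcpu i j))).neg.sub (hcp i))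
  obtain ⟨δ, hδdef⟩ : ∃ δ, δ = ρ / (256 * (t * Cf * W + 1)) := ⟨_, rfl⟩
  have htCW : 0 ≤ t * Cf * W := by positivity
  have hδ : 0 < δ := by rw [hδdef]; positivity
  obtain ⟨P, hP⟩ := hosc δ hδ
  obtain ⟨A, hAdef⟩ : ∃ A, A = 3 * W ^ 2 * C + 2 * |P| * W := ⟨_, rfl⟩
  have hA : 0 ≤ A := by rw [hAdef]; positivity
  refine ⟨max 1 (64 * t * Cf * A / ρ), ?_⟩
  intro R hR c s hs
  have hR1 : 1 ≤ R := (le_max_left _ _).trans hR
  have hR0 : 0 < R := by linarith
  have hRA : 64 * t * Cf * A ≤ ρ * R := by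
    have := (le_max_right _ _).trans hR
    rw [div_le_iff₀ hρ] at this
    linarith
  have hxc : (![c, 0, 0] : E) ∈ M := by simp [M]
  -- the flux bound
  have hflux : ∀ τ ∈ Icc 0 t, |∫ x in Bx c (2 * R), chi c R x * Dt U (u τ) (p τ) x| ≤
      32 * Cf * R * (3 * W ^ 2 * C + 2 * (δ * (2 * R) + |P|) * W) := by
    intro τ hτ
    refine flux_bound hDIV (q0 := p τ ![c, 0, 0]) (hvel τ hτ) (hp2 τ hτ) hR1 hW hCf (hC1 τ hτ)
      (hdv τ hτ) ?_ ?_
    · intro x hx
      have h := hP τ hτ x (Bx_sub _ _ hx) _ hxc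
      have hn : ‖x - ![c, 0, 0]‖ ≤ 2 * R := by
        rw [pi_norm_le_iff_of_nonneg (by linarith)]
        intro i
        fin_cases i
        · simpa using hx.2.1
        · simpa using hx.2.2
        · have h0 := hx.1.1
          have h1 := hx.1.2
          simp [abs_of_nonneg h0]
          linarith
      have h5 : δ * ‖x - ![c, 0, 0]‖ ≤ δ * (2 * R) := mul_le_mul_of_nonneg_left hn hδ.le
      have h6 := le_abs_self P
      linarith
    · exact hcD.comp (continuousOn_const.prodMk continuousOn_id) (fun x hx => ⟨hτ, hx⟩)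
  -- the fundamental theorem of calculus
  have hftc : ∀ x ∈ M, ∫ τ in (0:ℝ)..s, Dt U (u τ) (p τ) x = en U (u s) x - en U (u 0) x := by
    intro x hx
    have hder : ∀ τ ∈ Icc 0 t, HasDerivWithinAt (fun τ => en U (u τ) x) (Dt U (u τ) (p τ) x)
        (Icc 0 t) τ := by
      intro τ hτ
      have hd : ∀ i, HasDerivWithinAt (fun τ => dv U (u τ) i x) _ (Icc 0 t) τ :=
        fun i => (hE τ hτ x hx i).sub_const _
      have h := (((hd 0).mul (hd 0)).add ((hd 1).mul (hd 1))).add ((hd 2).mul (hd 2))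
      have e : (fun τ => en U (u τ) x) = fun τ => dv U (u τ) 0 x * dv U (u τ) 0 x +
          dv U (u τ) 1 x * dv U (u τ) 1 x + dv U (u τ) 2 x * dv U (u τ) 2 x :=
        funext fun τ => en_eq U (u τ) x
      rw [e]
      refine HasDerivWithinAt.congr_deriv h ?_
      simp only [Dt, Fin.sum_univ_three]
      ring
    have hcx : ContinuousOn (fun τ => Dt U (u τ) (p τ) x) (Icc 0 s) :=
      hcD.comp (continuousOn_id.prodMk continuousOn_const)
        (fun τ hτ => ⟨⟨hτ.1, hτ.2.trans hs.2⟩, hx⟩)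
    rw [intervalIntegral.integral_eq_sub_of_hasDeriv_right_of_le hs.1]
    · intro τ hτ
      exact ((hder τ ⟨hτ.1, hτ.2.trans hs.2⟩).continuousWithinAt).mono (Icc_subset_Icc_right hs.2)
    · intro τ hτ
      have hmem : τ ∈ Icc 0 t := ⟨hτ.1.le, hτ.2.le.trans hs.2⟩
      exact ((hder τ hmem).hasDerivAt (Icc_mem_nhds hτ.1 (hτ.2.trans_le hs.2))).hasDerivWithinAt
    · exact hcx.intervalIntegrable_of_Icc hs.1
  have hchi : Continuous (chi c R) := (chi_smooth c R).continuous
  have hK := Bx_compact c (2 * R)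
  have hs0 : (0:ℝ) ∈ Icc 0 t := h0t
  have hen : ∀ τ ∈ Icc 0 t, ContinuousOn (en U (u τ)) (Bx c (2 * R)) := fun τ hτ =>
    (en_continuousOn U (hvel τ hτ)).mono (Bx_sub _ _)
  -- Fubini
  have hfub : ∫ x in Bx c (2 * R), chi c R x * (en U (u s) x - en U (u 0) x) =
      ∫ τ in (0:ℝ)..s, ∫ x in Bx c (2 * R), chi c R x * Dt U (u τ) (p τ) x := by
    have h1 : ∫ x in Bx c (2 * R), chi c R x * (en U (u s) x - en U (u 0) x) =
        ∫ x in Bx c (2 * R), ∫ τ in Ioc 0 s, chi c R x * Dt U (u τ) (p τ) x := by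
      apply setIntegral_congr_fun hK.measurableSet
      intro x hx
      simp only
      rw [← hftc x (Bx_sub _ _ hx), intervalIntegral.integral_of_le hs.1, integral_const_mul]
    rw [h1, intervalIntegral.integral_of_le hs.1]
    symm
    apply integral_integral_swap
    rw [Measure.prod_restrict]
    have hc : ContinuousOn (Function.uncurry fun τ x => chi c R x * Dt U (u τ) (p τ) x)
        (Icc 0 s ×ˢ Bx c (2 * R)) := by
      refine ((hchi.comp continuous_snd).continuousOn).mul (hcD.mono ?_)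
      exact prod_mono (Icc_subset_Icc_right hs.2) (Bx_sub _ _)
    have hi : IntegrableOn (Function.uncurry fun τ x => chi c R x * Dt U (u τ) (p τ) x)
        (Icc 0 s ×ˢ Bx c (2 * R)) (volume.prod volume) :=
      hc.integrableOn_compact (isCompact_Icc.prod hK)
    exact hi.mono_set (prod_mono Ioc_subset_Icc_self le_rfl)
  have hb : |∫ x in Bx c (2 * R), chi c R x * (en U (u s) x - en U (u 0) x)| ≤
      32 * Cf * R * (3 * W ^ 2 * C + 2 * (δ * (2 * R) + |P|) * W) * t := by
    rw [hfub]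
    have h := intervalIntegral.norm_integral_le_of_norm_le_const (a := (0:ℝ)) (b := s)
      (f := fun τ => ∫ x in Bx c (2 * R), chi c R x * Dt U (u τ) (p τ) x)
      (C := 32 * Cf * R * (3 * W ^ 2 * C + 2 * (δ * (2 * R) + |P|) * W)) (by
        intro τ hτ
        rw [uIoc_of_le hs.1] at hτ
        exact hflux τ ⟨hτ.1.le, hτ.2.trans hs.2⟩)
    rw [Real.norm_eq_abs, sub_zero, abs_of_nonneg hs.1] at h
    refine h.trans (mul_le_mul_of_nonneg_left hs.2 ?_)
    positivity
  -- assembling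
  have hbnd : 32 * Cf * R * (3 * W ^ 2 * C + 2 * (δ * (2 * R) + |P|) * W) * t ≤ ρ * R ^ 2 := by
    have e1 : 32 * Cf * R * (3 * W ^ 2 * C + 2 * (δ * (2 * R) + |P|) * W) * t =
        32 * t * Cf * A * R + 128 * (t * Cf * W) * δ * R ^ 2 := by
      rw [hAdef]; ring
    have e2 : 128 * (t * Cf * W) * δ ≤ ρ / 2 := by
      rw [hδdef, ← mul_div_assoc, div_le_iff₀ (by positivity)]
      nlinarith
    have e3 : 32 * t * Cf * A * R ≤ ρ / 2 * R ^ 2 := by
      have := mul_le_mul_of_nonneg_right hRA hR0.le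
      nlinarith
    have e4 : 128 * (t * Cf * W) * δ * R ^ 2 ≤ ρ / 2 * R ^ 2 :=
      mul_le_mul_of_nonneg_right e2 (by positivity)
    rw [e1]
    linarith
  have iS : ∀ τ ∈ Icc 0 t, IntegrableOn (fun x => chi c R x * en U (u τ) x) (Bx c (2 * R)) :=
    fun τ hτ => ContinuousOn.integrableOn_compact hK (hchi.continuousOn.mul (hen τ hτ))
  have step1 : ∫ x in Bx c R, en U (u s) x ≤ ∫ x in Bx c (2 * R), chi c R x * en U (u s) x := by
    have h1 : ∫ x in Bx c R, en U (u s) x = ∫ x in Bx c R, chi c R x * en U (u s) x := by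
      apply setIntegral_congr_fun (Bx_compact c R).measurableSet
      intro x hx
      simp only
      rw [chi_one hR0 hx, one_mul]
    rw [h1]
    apply setIntegral_mono_set (iS s hs)
    · exact Filter.Eventually.of_forall fun x => mul_nonneg (chi_nonneg _ _ _) (en_nonneg _ _ _)
    · exact (Bx_mono c (by linarith)).eventuallyLE
  have step2 : ∫ x in Bx c (2 * R), chi c R x * en U (u 0) x ≤
      ∫ x in Bx c (2 * R), en U (u 0) x := by
    apply setIntegral_mono_on (iS 0 h0t) ((hen 0 h0t).integrableOn_compact hK) hK.measurableSet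
    intro x hx
    have := mul_le_mul_of_nonneg_right (chi_le c R x) (en_nonneg U (u 0) x)
    linarith
  have step3 : ∫ x in Bx c (2 * R), chi c R x * (en U (u s) x - en U (u 0) x) =
      (∫ x in Bx c (2 * R), chi c R x * en U (u s) x) -
        ∫ x in Bx c (2 * R), chi c R x * en U (u 0) x := by
    rw [← integral_sub (iS s hs) (iS 0 h0t)]
    congr 1
    ext x
    ring
  have := le_abs_self (∫ x in Bx c (2 * R), chi c R x * (en U (u s) x - en U (u 0) x))
  linarith

end Pool.Agent.Helper48.Slab
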